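import Pool.Agent.Lib.H75.QuatMat

set_option autoImplicit false

namespace Pool.Agent.Results.MP_64d585_al.ExtendNeutral

open Quaternion Matrix Pool.Agent.Lib.H75.QuatDefs

/-- Positive answer to Q1. Let `φ` be a nonstandard involution of the quaternions, `φ β = -β`, `|β| = 1`,
let `H` be an invertible `φ`-hermitian matrix and `A` an `(H, φ)`-skewsymmetric matrix. Then every
`A`-invariant `(HA, φ)`-neutral subspace `N` is contained in an `A`-invariant maximal
`(HA, φ)`-nonnegative subspace and in an `A`-invariant maximal `(HA, φ)`-nonpositive subspace. -/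
theorem result (n : ℕ) (φ : ℍ[ℝ] →ₗ[ℝ] ℍ[ℝ]) (hφ : IsNonstandardInvolution φ)
    (β : ℍ[ℝ]) (hβ : φ β = -β) (hβ1 : ‖β‖ = 1)
    (H A : Matrix (Fin n) (Fin n) ℍ[ℝ]) (hH : IsUnit H) (hHφ : phiT φ H = H)
    (hA : H * A = -(phiT φ A * H))
    (N : Subspace n) (hN : Invariant A N) (hNn : Neutral φ (H * A) N) :
    (∃ L : Subspace n, N ≤ L ∧ Invariant A L ∧ MaxNonneg φ β (H * A) L) ∧
    (∃ L : Subspace n, N ≤ L ∧ Invariant A L ∧ MaxNonpos φ β (H * A) L) :=
  Pool.Agent.Lib.H75.QuatMat.Q1 hφ hβ hβ1 hH hHφ hA N hN hNn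

end Pool.Agent.Results.MP_64d585_al.ExtendNeutral
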