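import Pool.Agent.Lib.H75.QuatMat

set_option autoImplicit false

namespace Pool.Agent.Results.MP_64d585_al.ExtendWithSpectrum

open Quaternion Matrix Pool.Agent.Lib.H75.QuatDefs

/-- Positive answer to Q2. In the situation of Q1, let `S` be a c-set of `A` containing all eigenvalues
of `A` on `N` with nonzero real part (so that these satisfy `l ∈ S₀ → -l ∉ S₀`). Then `N` is contained
in an `A`-invariant maximal `(HA, φ)`-nonnegative subspace `L` such that `S` is exactly the set of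
eigenvalues of `A` on `L` with nonzero real part, and likewise for maximal nonpositive subspaces. -/
theorem result (n : ℕ) (φ : ℍ[ℝ] →ₗ[ℝ] ℍ[ℝ]) (hφ : IsNonstandardInvolution φ)
    (β : ℍ[ℝ]) (hβ : φ β = -β) (hβ1 : ‖β‖ = 1)
    (H A : Matrix (Fin n) (Fin n) ℍ[ℝ]) (hH : IsUnit H) (hHφ : phiT φ H = H)
    (hA : H * A = -(phiT φ A * H))
    (N : Subspace n) (hN : Invariant A N) (hNn : Neutral φ (H * A) N)
    (S : Set ℍ[ℝ]) (hS : IsCSet A S) (hNS : {l ∈ eigs A N | l.re ≠ 0} ⊆ S) :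
    (∃ L : Subspace n, N ≤ L ∧ Invariant A L ∧ MaxNonneg φ β (H * A) L ∧
      {l ∈ eigs A L | l.re ≠ 0} = S) ∧
    (∃ L : Subspace n, N ≤ L ∧ Invariant A L ∧ MaxNonpos φ β (H * A) L ∧
      {l ∈ eigs A L | l.re ≠ 0} = S) :=
  Pool.Agent.Lib.H75.QuatMat.Q2 hφ hβ hβ1 hH hHφ hA N hN hNn S hS hNS

end Pool.Agent.Results.MP_64d585_al.ExtendWithSpectrum
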